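import Pool.Agent.H44.CM.Asm
import Pool.Agent.H50.AR.SYN
import Pool.Agent.H56.AR.ORD
import Pool.Agent.H19.AR.RLZ
import Pool.Agent.H19.AR.FRB
import Pool.Agent.H77.AR.CANR
import Pool.Agent.H77.AR.PWG
import Pool.Agent.H60.AR.COL
import Pool.Agent.H3.AR.SHP
import Pool.Agent.H16.AR.MAX
import Pool.Agent.H19.AR.NEE
import Pool.Agent.H19.AR.BLD
import Pool.Agent.H35.AR.SUB
import Pool.Agent.H18.AR.BLC
import Pool.Agent.H44.AR.UKM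
import Pool.Agent.H78.AR.PRM
import Pool.Agent.H81.AR.STN
import Pool.Agent.H75.AR.NCT
import Pool.Agent.H18.AR.LNK
import Pool.Agent.H44.AR.SPT
import Pool.Agent.H3.AR.PRB
import Pool.Agent.H54.AR.CR2
import Pool.Agent.H63.AR.PRE
import Pool.Agent.H68.AR.STR
import Pool.Agent.H1.GR.NR3
import Pool.Agent.H24.GR.NRI
import Pool.Agent.H3.GR.NR2
import Pool.Agent.H56.NR.RSS
import Pool.Agent.H36.GR.PCT
import Pool.Agent.H34.GR.ITR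
import Pool.Agent.H90.GR.STP
import Pool.Agent.H39.NR.LIN
import Pool.Agent.H70.AR.HH0
import Pool.Agent.H60.AR.PWO

/-!
# Completions: part A
-/

set_option autoImplicit false

namespace Pool.Agent.H44.CM

open Pool.Agent.H68.BP
open Pool.Agent.H57.AR Pool.Agent.H44.AR

theorem a_SYN : T_SYN := Pool.Agent.H50.AR.pf_SYN

theorem a_ORD : T_ORD := Pool.Agent.H56.AR.pf_ORD a_SYN

theorem a_RLZ : T_RLZ := Pool.Agent.H19.AR.pf_RLZ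

theorem a_FRB : T_FRB := Pool.Agent.H19.AR.pf_FRB a_SYN

theorem a_CANR : Pool.Agent.H44.AR.T_CANR := Pool.Agent.H77.AR.pf_CANR

theorem a_PWG : T_PWG := Pool.Agent.H77.AR.pf_PWG

theorem a_COL : T_COL := Pool.Agent.H60.AR.pf_COL a_SYN

theorem a_SHP : T_SHP := Pool.Agent.H3.AR.pf_SHP a_COL a_ORD

theorem a_NEE : T_NEE := Pool.Agent.H19.AR.pf_NEE a_COL a_FRB

theorem a_BLD : T_BLD := Pool.Agent.H19.AR.pf_BLD a_SYN

theorem a_UKM : T_UKM := pf_UKM Pool.Agent.H18.AR.pf_BLC a_FRB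

theorem a_PRM : T_PRM := Pool.Agent.H78.AR.pf_PRM a_UKM a_FRB

theorem a_STN : T_STN := Pool.Agent.H81.AR.pf_STN a_UKM a_PRM a_FRB

theorem a_NCT : T_NCT := Pool.Agent.H75.AR.pf_NCT a_SYN a_UKM a_FRB

theorem a_LNK : T_LNK := Pool.Agent.H18.AR.pf_LNK a_FRB

theorem a_SPT : T_SPT := pf_SPT a_SYN

theorem a_CR2 : T_CR2 := Pool.Agent.H54.AR.pf_CR2

theorem a_PRE : T_PRE := Pool.Agent.H63.AR.pf_PRE

theorem a_STC : T_STC := asm_STC Pool.Agent.H16.AR.pf_MAX a_SHP a_NEE a_PRE a_BLD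

theorem a_STR : T_STR := Pool.Agent.H68.AR.pf_STR Pool.Agent.H35.AR.pf_SUB a_PRE

theorem a_NR3 : Pool.Agent.H53.GR.T_NR3 :=
  Pool.Agent.H1.GR.pf_NR3 (Pool.Agent.H24.GR.NRI.pf_NRI (Pool.Agent.H3.GR.pf_NR2
    Pool.Agent.H56.NR.pf_RSS (Pool.Agent.H36.GR.pf_PCT (Pool.Agent.H34.GR.pf_ITR
      Pool.Agent.H90.GR.pf_STP)) Pool.Agent.H39.NR.pf_LIN))

theorem a_PRB : T_PRB := Pool.Agent.H3.AR.pf_PRB a_NR3 a_CANR

theorem a_HH0 : T_HH0 :=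
  Pool.Agent.H70.AR.pf_HH0 a_NR3 (Pool.Agent.H60.AR.pf_PWO a_PWG a_RLZ) a_CANR

/-- The restriction to a core. -/
theorem a_PAR : Pool.Agent.H57.AR.T_PAR :=
  glue_PAR a_HH0 a_STR a_STC a_STN a_NCT a_LNK a_SPT a_PRB a_CR2

/-- The theorem for homogeneous structures with completions, from the theorems on the template. -/
theorem asm_cm2 (hREDR : T_REDR)
    (hTPL : ∀ (σ ρ : Sig) (V S X : Type) [LinearOrder V] [Finite S]
      (P : Pool.Agent.H57.SO.Pal S X) (𝔸 : Str σ V)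
      (𝔹 : Str ρ V) (M : ℕ) (c : V → V → S ⊕ X), StpR P 𝔸 𝔹 M c → ∀ h h2,
      CoreR P 𝔸 𝔹 c h h2 → ¬ PPConstructsK3 (tpR P 𝔸 𝔹 M c))
    (hOLG : Pool.Agent.H57.EQ.T_OLG) (hTYIR : T_TYIR)
    (τ σ : Sig) (B : Type) [Countable B] [Nonempty B] (𝔹 : Str τ B) (𝔸 : Str σ B)
    (har : ∀ l, 1 ≤ τ.ar l) (hH : Homogeneous 𝔹) (hC : Completable 𝔹)
    (hS : ∀ g : B ≃ B, IsAut 𝔹 g → IsAut 𝔸 g) :
    PPConstructsK3 𝔸 ∨ ∃ (σ' : Sig) (Y : Type) (_ : Finite Y) (𝕋 : Str σ' Y),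
      ¬ PPConstructsK3 𝕋 ∧ N793a5b8e.ManyOneReducible (CSP 𝔸) (CSP 𝕋) :=
  asm_cm a_NR3 a_CANR a_PWG a_RLZ a_STR a_STC a_STN a_NCT a_LNK a_SPT a_PRB a_CR2 hREDR hTPL
    hOLG hTYIR τ σ B 𝔹 𝔸 har hH hC hS

end Pool.Agent.H44.CM
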