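import Pool.Agent.H44.CM.Sit
import Pool.Agent.H44.AR.GlueA
import Pool.Agent.H57.AR.Asm

/-!
# Completions: assembly
-/

set_option autoImplicit false

namespace Pool.Agent.H44.CM

open Pool.Agent.H68.BP Pool.Agent.H58.SF Pool.Agent.H53.NR
open Pool.Agent.H53.GC (arP relP)
open Pool.Agent.H53.GR (Univ Dm)
open Pool.Agent.H57.AR Pool.Agent.H44.AR
open Pool.Agent.H57.SO (Pal)
open Pool.Agent.H57.EQ (Cx T_OLG)
open Function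

/-- the restriction to a core, from a canonical Olšák map -/
theorem glue_SIT (hSTR : T_STR) (hSTC : T_STC) (hSTN : T_STN) (hNCT : T_NCT)
    (hLNK : T_LNK) (hSPT : T_SPT) (hPRB : T_PRB) (hCR2 : T_CR2) {σ ρ : Sig} {V : Type}
    [LinearOrder V] {𝔸 : Str σ V} {𝔹 : Str ρ V} {M : ℕ} (hU : Un 𝔹 M)
    {h : OT ρ (Fin 6 → V)} (hh : Sit 𝔹 𝔸 ∅ h) :
    ∃ (V' S' X' : Type) (_ : LinearOrder V') (P' : Pal S' X') (𝔸' : Str σ V')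
      (𝔹' : Str ρ V') (c' : V' → V' → S' ⊕ X') (h' : Ty ρ (Fin 6 → V'))
      (h2 : (Fin 6 → V') → (Fin 6 → V') → S' ⊕ X'),
      StpR P' 𝔸' 𝔹' M c' ∧ CoreR P' 𝔸' 𝔹' c' h' h2 ∧ HomEq 𝔸 𝔸' := by
  obtain ⟨V₁, _, 𝔸₁, 𝔹₁, h₁, m₁, n₁, hU₁, hh₁, hm₁, hn₁, hne₁⟩ := hSTR σ ρ V 𝔸 𝔹 M hU h hh
  obtain ⟨D, 𝔸₂, h₂, m₂, n₂, hh₂, hne1, hne2, hm₂, hn₂⟩ := hSTC σ ρ V₁ 𝔸₁ 𝔹₁ M hU₁ h₁ hh₁ hne₁
  obtain ⟨h₃, hh₃⟩ := hSTN σ ρ V₁ 𝔸₂ 𝔹₁ M hU₁ D h₂ hh₂ hne1 hne2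
  obtain ⟨S, X, P, c, h', h2, hst, hcore⟩ := asm_core hNCT hLNK hSPT hPRB hCR2 hU₁ hh₃
  exact ⟨V₁, S, X, inferInstance, P, 𝔸₂, 𝔹₁, c, h', h2, hst, hcore,
    fun n 𝕏 => ⟨fun hf => hm₂.hom (hm₁.hom hf), fun hf => hn₁.hom (hn₂.hom hf)⟩⟩

/-- structures with the same homomorphisms into them have the same constraint satisfaction
problem -/
theorem csp_eq {σ : Sig} {V V' : Type} {𝔸 : Str σ V} {𝔸' : Str σ V'} (hom : HomEq 𝔸 𝔸') :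
    CSP 𝔸 = CSP 𝔸' := by
  funext w
  unfold CSP
  refine decide_eq_decide.2 ?_
  constructor
  · rintro ⟨n, L, h1, h2, h3⟩
    exact ⟨n, L, h1, h2, (hom n _).1 h3⟩
  · rintro ⟨n, L, h1, h2, h3⟩
    exact ⟨n, L, h1, h2, (hom n _).2 h3⟩

/-- the property for a given bound -/
def CompB {τ : Sig} {B : Type} (𝔹 : Str τ B) (M : ℕ) : Prop :=
  ∀ (n : ℕ) (𝕏 : Str τ (Fin n)) (G : Fin n → Fin n → Prop), (∀ i j, G i j → G j i) →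
    (∀ (m : ℕ) (s : Fin m → Fin n), m ≤ M → Injective s → (∀ i j, i ≠ j → G (s i) (s j)) →
      Embeds (pull 𝕏 s) 𝔹) →
    ∃ f : Fin n → B, (∀ i j, i ≠ j → G i j → f i ≠ f j) ∧
      ∀ (l : Fin τ.m) (z : Fin (τ.ar l) → Fin n), (∀ i j, z i = z j ∨ G (z i) (z j)) →
        (𝔹 l (fun i => f (z i)) ↔ 𝕏 l z)

theorem CompB.mono {τ : Sig} {B : Type} {𝔹 : Str τ B} {M M' : ℕ} (h : CompB 𝔹 M)
    (hM : M ≤ M') : CompB 𝔹 M' :=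
  fun n 𝕏 G hG hK => h n 𝕏 G hG fun m s hm => hK m s (hm.trans hM)

/-- structures with free amalgamation have completions -/
theorem completable_of_free (hFB1 : T_FB1) {τ : Sig} {B : Type} {𝔹 : Str τ B}
    (hF : FinitelyBounded 𝔹) (hA : FreeAmalgamation 𝔹) : Completable 𝔹 := by
  obtain ⟨M, -, hM⟩ := hFB1 τ B 𝔹 hF hA
  refine ⟨M, fun n 𝕏 G hG hK => ?_⟩
  let 𝕐 : Str τ (Fin n) := fun l z => 𝕏 l z ∧ ∀ i j, z i = z j ∨ G (z i) (z j)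
  obtain ⟨f, hf1, hf2⟩ := hM n 𝕐 (by
    intro m s hm hs hI
    have hadj : ∀ i j, i ≠ j → G (s i) (s j) := by
      intro i j hij
      obtain ⟨l, z, hz, ⟨a, ha⟩, ⟨b, hb⟩⟩ := hI i j hij
      have h1 := hz.2 a b
      beta_reduce at h1
      rw [ha, hb] at h1
      exact h1.resolve_left fun h => hij (hs h)
    have hp : pull 𝕐 s = pull 𝕏 s := by
      funext l z
      refine propext ⟨fun h => h.1, fun h => ⟨h, fun i j => ?_⟩⟩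
      by_cases hij : z i = z j
      · exact Or.inl (congrArg s hij)
      · exact Or.inr (hadj _ _ hij)
    rw [hp]
    exact hK m s hm hs hadj)
  exact ⟨f, fun i j hij _ => fun h => hij (hf1 h), fun l z hz =>
    ⟨fun h => ((hf2 l z).2 h).1, fun h => (hf2 l z).1 ⟨h, hz⟩⟩⟩

/-- The theorem for all first-order reducts of homogeneous structures with completions. -/
theorem asm_cm (hNR3 : Pool.Agent.H53.GR.T_NR3) (hCAN : Pool.Agent.H44.AR.T_CANR)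
    (hPWG : T_PWG) (hRLZ : T_RLZ) (hSTR : T_STR) (hSTC : T_STC) (hSTN : T_STN) (hNCT : T_NCT)
    (hLNK : T_LNK) (hSPT : T_SPT) (hPRB : T_PRB) (hCR2 : T_CR2) (hREDR : T_REDR)
    (hTPL : ∀ (σ ρ : Sig) (V S X : Type) [LinearOrder V] [Finite S] (P : Pal S X) (𝔸 : Str σ V)
      (𝔹 : Str ρ V) (M : ℕ) (c : V → V → S ⊕ X), StpR P 𝔸 𝔹 M c → ∀ h h2,
      CoreR P 𝔸 𝔹 c h h2 → ¬ PPConstructsK3 (tpR P 𝔸 𝔹 M c))
    (hOLG : T_OLG) (hTYIR : T_TYIR)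
    (τ σ : Sig) (B : Type) [Countable B] [Nonempty B] (𝔹 : Str τ B) (𝔸 : Str σ B)
    (har : ∀ l, 1 ≤ τ.ar l) (hH : Homogeneous 𝔹) (hC : Completable 𝔹)
    (hS : ∀ g : B ≃ B, IsAut 𝔹 g → IsAut 𝔸 g) :
    PPConstructsK3 𝔸 ∨ ∃ (σ' : Sig) (Y : Type) (_ : Finite Y) (𝕋 : Str σ' Y),
      ¬ PPConstructsK3 𝕋 ∧ N793a5b8e.ManyOneReducible (CSP 𝔸) (CSP 𝕋) := by
  by_cases hK : PPConstructsK3 𝔸
  · exact Or.inl hK
  obtain ⟨M₀, hM₀⟩ := hC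
  let M := max (max M₀ 3) (τ.width + 1)
  have hCM : CompB 𝔹 M := CompB.mono (M := M₀) hM₀ (le_trans (le_max_left _ _) (le_max_left _ _))
  have h3 : 3 ≤ M := le_trans (le_max_right M₀ 3) (le_max_left _ _)
  have hw : ∀ l, τ.ar l < M := fun l =>
    lt_of_lt_of_le (Nat.lt_succ_of_le (Finset.le_sup (f := τ.ar) (Finset.mem_univ l)))
      (le_max_right _ _)
  have harM : ∀ l, 1 ≤ τ.ar l ∧ τ.ar l < M := fun l => ⟨har l, hw l⟩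
  obtain ⟨en, hen⟩ := exists_injective_nat B
  let _ : LinearOrder B := LinearOrder.lift' en hen
  have htyi : ∀ (l : Fin σ.m) (x y : Fin (σ.ar l) → B), 𝔸 l x → tp 𝔹 y = tp 𝔹 x → 𝔸 l y :=
    hTYIR τ σ B 𝔹 𝔸 hH hS
  have hcpl : ∀ (W : Type) [Finite W] (x : W → Sm 𝔹 M), ∃ y : W → B, Cpl 𝔹 (𝕌 𝔹 M) x y :=
    fun W _ x => exists_cpl har hCM h3 x
  obtain ⟨h, hh⟩ := sit_cAll hNR3 hCAN hPWG hRLZ h3 harM htyi hcpl
    (hOLG τ σ B 𝔹 𝔸 inferInstance hH hS) hK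
  obtain ⟨V', S', X', lo, P', 𝔸', 𝔹', c', h', h2, hs', hh', hom⟩ :=
    glue_SIT hSTR hSTC hSTN hNCT hLNK hSPT hPRB hCR2 (un_u h3 harM) hh
  have := hs'.lnk.finS
  refine Or.inr ⟨_, El S' (plus τ) M, inferInstance, tpR P' 𝔸' 𝔹' M c',
    hTPL σ (plus τ) V' S' X' P' 𝔸' 𝔹' M c' hs' h' h2 hh', ?_⟩
  rw [csp_eq (homEq_cAll har htyi hcpl), csp_eq hom]
  exact hREDR σ (plus τ) V' S' X' P' 𝔸' 𝔹' M c' hs'

end Pool.Agent.H44.CM
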