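import Pool.Agent.H44.CM.Defs

/-!
# Completions: classes with disjoint amalgamation of all orders
-/

set_option autoImplicit false

namespace Pool.Agent.H44.CM

open Pool.Agent.H68.BP Pool.Agent.H58.SF Pool.Agent.H53.GC Pool.Agent.H53.NR
open Function

variable {τ : Sig} {B : Type}

/-- The age of `𝔹` has disjoint amalgamation of all orders: if all proper substructures of the
structure `𝕏` with `n` elements embed into `𝔹`, then there is a structure on the same set which has
the same proper substructures and embeds into `𝔹`. -/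
def DisjointAmalgamation (𝔹 : Str τ B) : Prop :=
  ∀ (n : ℕ) (𝕏 : Str τ (Fin n)),
    (∀ (m : ℕ) (s : Fin m → Fin n), m < n → Injective s → Embeds (pull 𝕏 s) 𝔹) →
    ∃ 𝕐 : Str τ (Fin n), Embeds 𝕐 𝔹 ∧
      ∀ (l : Fin τ.m) (z : Fin (τ.ar l) → Fin n), ¬ Surjective z → (𝕐 l z ↔ 𝕏 l z)

theorem embeds_pull {W U : Type} {𝕏 : Str τ W} {𝔹 : Str τ B} (h : Embeds 𝕏 𝔹) {s : U → W}
    (hs : Injective s) : Embeds (pull 𝕏 s) 𝔹 := by
  obtain ⟨f, hf, hf2⟩ := h
  exact ⟨fun u => f (s u), hf.comp hs, fun l z => hf2 l (fun i => s (z i))⟩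

/-- one step: the substructures with `k + 1` elements -/
theorem da_step {𝔹 : Str τ B} (hD : DisjointAmalgamation 𝔹) {n : ℕ} (𝕏 : Str τ (Fin n))
    (G : Fin n → Fin n → Prop)
    (hG : ∀ (m : ℕ) (s : Fin m → Fin n), m ≤ τ.width → Injective s →
      (∀ i j, i ≠ j → G (s i) (s j)) → Embeds (pull 𝕏 s) 𝔹) (k : ℕ) (𝕐 : Str τ (Fin n))
    (ha : ∀ (l : Fin τ.m) (z : Fin (τ.ar l) → Fin n), (∀ i j, z i = z j ∨ G (z i) (z j)) →
      (𝕐 l z ↔ 𝕏 l z))
    (hb : ∀ (m : ℕ) (s : Fin m → Fin n), m ≤ k → Injective s → Embeds (pull 𝕐 s) 𝔹) :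
    ∃ 𝕐' : Str τ (Fin n), (∀ (l : Fin τ.m) (z : Fin (τ.ar l) → Fin n),
        (∀ i j, z i = z j ∨ G (z i) (z j)) → (𝕐' l z ↔ 𝕏 l z)) ∧
      ∀ (m : ℕ) (s : Fin m → Fin n), m ≤ k + 1 → Injective s → Embeds (pull 𝕐' s) 𝔹 := by
  classical
  -- the structures on the sets with `k + 1` elements
  have hex : ∀ (S : Finset (Fin n)) (hS : S.card = k + 1), ∃ ℍ : Str τ (Fin (k + 1)),
      Embeds ℍ 𝔹 ∧ (∀ (l : Fin τ.m) (w : Fin (τ.ar l) → Fin (k + 1)), ¬ Surjective w →
        (ℍ l w ↔ 𝕐 l (fun i => S.orderEmbOfFin hS (w i)))) ∧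
      ((∀ i j, i ≠ j → G (S.orderEmbOfFin hS i) (S.orderEmbOfFin hS j)) →
        ∀ (l : Fin τ.m) (w : Fin (τ.ar l) → Fin (k + 1)), (ℍ l w ↔
          𝕏 l (fun i => S.orderEmbOfFin hS (w i)))) := by
    intro S hS
    have hcl : (∀ i j, i ≠ j → G (S.orderEmbOfFin hS i) (S.orderEmbOfFin hS j)) →
        ∀ (l : Fin τ.m) (w : Fin (τ.ar l) → Fin (k + 1)),
          (𝕐 l (fun i => S.orderEmbOfFin hS (w i)) ↔ 𝕏 l (fun i => S.orderEmbOfFin hS (w i))) := by
      intro h l w
      refine ha l _ fun i j => ?_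
      by_cases hij : w i = w j
      · exact Or.inl (by rw [hij])
      · exact Or.inr (h _ _ hij)
    by_cases hC : (∀ i j, i ≠ j → G (S.orderEmbOfFin hS i) (S.orderEmbOfFin hS j)) ∧
        k + 1 ≤ τ.width
    · refine ⟨pull 𝕏 (S.orderEmbOfFin hS), hG _ _ hC.2 (S.orderEmbOfFin hS).injective hC.1,
        fun l w _ => (hcl hC.1 l w).symm, fun _ l w => Iff.rfl⟩
    · obtain ⟨ℍ, h1, h2⟩ := hD (k + 1) (pull 𝕐 (S.orderEmbOfFin hS)) (fun m s hm hs =>
        hb m _ (by omega) ((S.orderEmbOfFin hS).injective.comp hs))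
      refine ⟨ℍ, h1, h2, fun h l w => ?_⟩
      have hw : τ.width < k + 1 := by
        by_contra h3
        exact hC ⟨h, by omega⟩
      rw [h2 l w fun hsur => ?_]
      · exact hcl h l w
      · have h3 := Fintype.card_le_of_surjective w hsur
        rw [Fintype.card_fin, Fintype.card_fin] at h3
        have h4 : τ.ar l ≤ τ.width := Finset.le_sup (f := τ.ar) (Finset.mem_univ l)
        omega
  choose ℍ hZ1 hZ2 hZ3 using hex
  -- the new structure
  let 𝕐' : Str τ (Fin n) := fun l z =>
    (∃ (S : Finset (Fin n)) (hS : S.card = k + 1) (w : Fin (τ.ar l) → Fin (k + 1)),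
      Surjective w ∧ (z = fun i => S.orderEmbOfFin hS (w i)) ∧ ℍ S hS l w) ∨
    ((Finset.univ.image z).card ≠ k + 1 ∧ 𝕐 l z)
  have himg : ∀ {r : ℕ} (S : Finset (Fin n)) (hS : S.card = k + 1) (w : Fin r → Fin (k + 1)),
      (Finset.univ.image fun i => S.orderEmbOfFin hS (w i)).card = (Finset.univ.image w).card := by
    intro r S hS w
    rw [← Finset.card_image_of_injective (Finset.univ.image w) (S.orderEmbOfFin hS).injective,
      Finset.image_image]
    rfl
  have hsurj : ∀ {r : ℕ} (w : Fin r → Fin (k + 1)), Surjective w ↔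
      (Finset.univ.image w).card = k + 1 := by
    intro r w
    constructor
    · intro h
      rw [Finset.image_univ_of_surjective h, Finset.card_univ, Fintype.card_fin]
    · intro h x
      have h1 : Finset.univ.image w = Finset.univ := by
        rw [← Finset.card_eq_iff_eq_univ, h, Fintype.card_fin]
      obtain ⟨i, -, hi⟩ := Finset.mem_image.1 (h1 ▸ Finset.mem_univ x)
      exact ⟨i, hi⟩
  have F1 : ∀ (S : Finset (Fin n)) (hS : S.card = k + 1) (l : Fin τ.m)
      (w : Fin (τ.ar l) → Fin (k + 1)), Surjective w →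
      (𝕐' l (fun i => S.orderEmbOfFin hS (w i)) ↔ ℍ S hS l w) := by
    intro S hS l w hw
    constructor
    · rintro (⟨S', hS', w', hw', he, h⟩ | ⟨h1, -⟩)
      · have h1 : ∀ (S : Finset (Fin n)) (hS : S.card = k + 1)
            (w : Fin (τ.ar l) → Fin (k + 1)), Surjective w →
            Finset.univ.image (fun i => S.orderEmbOfFin hS (w i)) = S := by
          intro S hS w hw
          refine Finset.eq_of_subset_of_card_le ?_ ?_
          · intro x hx
            obtain ⟨i, -, rfl⟩ := Finset.mem_image.1 hx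
            exact Finset.orderEmbOfFin_mem S hS (w i)
          · rw [himg, hS, (hsurj w).1 hw]
        have h2 : S = S' := by
          rw [← h1 S hS w hw, ← h1 S' hS' w' hw', he]
        subst h2
        have h3 : w = w' := by
          funext i
          exact (S.orderEmbOfFin hS).injective (congrFun he i)
        rw [h3]
        exact h
      · exact absurd (by rw [himg, (hsurj w).1 hw]) h1
    · intro h
      exact Or.inl ⟨S, hS, w, hw, rfl, h⟩
  have F2 : ∀ (l : Fin τ.m) (z : Fin (τ.ar l) → Fin n), (Finset.univ.image z).card ≠ k + 1 →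
      (𝕐' l z ↔ 𝕐 l z) := by
    intro l z hz
    constructor
    · rintro (⟨S, hS, w, hw, rfl, -⟩ | ⟨-, h⟩)
      · exact absurd (by rw [himg, (hsurj w).1 hw]) hz
      · exact h
    · intro h
      exact Or.inr ⟨hz, h⟩
  have F3 : ∀ {r : ℕ} (z : Fin r → Fin n), (Finset.univ.image z).card = k + 1 →
      ∃ (S : Finset (Fin n)) (hS : S.card = k + 1) (w : Fin r → Fin (k + 1)),
        Surjective w ∧ z = fun i => S.orderEmbOfFin hS (w i) := by
    intro r z hz
    have hw : ∀ i, ∃ j, (Finset.univ.image z).orderEmbOfFin hz j = z i := by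
      intro i
      have h1 : z i ∈ Set.range ((Finset.univ.image z).orderEmbOfFin hz) := by
        rw [Finset.range_orderEmbOfFin]
        exact Finset.mem_coe.2 (Finset.mem_image_of_mem z (Finset.mem_univ i))
      exact h1
    choose w hw using hw
    have he : z = fun i => (Finset.univ.image z).orderEmbOfFin hz (w i) :=
      funext fun i => (hw i).symm
    refine ⟨_, hz, w, ?_, he⟩
    rw [hsurj, ← himg _ hz, ← he, hz]
  have F4 : ∀ (S : Finset (Fin n)) (hS : S.card = k + 1) (l : Fin τ.m)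
      (w : Fin (τ.ar l) → Fin (k + 1)), 𝕐' l (fun i => S.orderEmbOfFin hS (w i)) ↔
        ℍ S hS l w := by
    intro S hS l w
    by_cases hw : Surjective w
    · exact F1 S hS l w hw
    · rw [F2 l _ (by rw [himg]; exact fun h => hw ((hsurj w).2 h))]
      exact (hZ2 S hS l w hw).symm
  refine ⟨𝕐', fun l z hz => ?_, fun m s hm hs => ?_⟩
  · by_cases hc : (Finset.univ.image z).card = k + 1
    · obtain ⟨S, hS, w, hw, rfl⟩ := F3 z hc
      rw [F1 S hS l w hw]
      refine hZ3 S hS (fun i j hij => ?_) l w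
      obtain ⟨a, rfl⟩ := hw i
      obtain ⟨b, rfl⟩ := hw j
      exact (hz a b).resolve_left fun h => hij ((S.orderEmbOfFin hS).injective h)
    · rw [F2 l z hc]
      exact ha l z hz
  · rcases Nat.lt_or_ge k m with hk | hk
    · obtain rfl : m = k + 1 := by omega
      have hc : (Finset.univ.image s).card = k + 1 := by
        rw [Finset.card_image_of_injective _ hs, Finset.card_univ, Fintype.card_fin]
      obtain ⟨S, hS, w, hw, rfl⟩ := F3 s hc
      obtain ⟨f, hf1, hf2⟩ := hZ1 S hS
      have hwi : Injective w := fun i j hij => hs (by simp only [hij])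
      refine ⟨fun i => f (w i), hf1.comp hwi, fun l z => ?_⟩
      exact (F4 S hS l (fun i => w (z i))).trans (hf2 l fun i => w (z i))
    · have h1 : pull 𝕐' s = pull 𝕐 s := by
        funext l z
        refine propext (F2 l (fun i => s (z i)) ?_)
        have h2 : (Finset.univ.image fun i => s (z i)).card ≤ (Finset.univ.image s).card := by
          refine Finset.card_le_card ?_
          intro x hx
          obtain ⟨i, -, rfl⟩ := Finset.mem_image.1 hx
          exact Finset.mem_image_of_mem s (Finset.mem_univ _)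
        have h3 : (Finset.univ.image s).card ≤ m := by
          refine Finset.card_image_le.trans ?_
          rw [Finset.card_univ, Fintype.card_fin]
        omega
      rw [h1]
      exact hb m s hk hs

/-- Classes with disjoint amalgamation of all orders have completions. -/
theorem completable_of_disjoint {𝔹 : Str τ B} (hD : DisjointAmalgamation 𝔹) :
    Completable 𝔹 := by
  refine ⟨τ.width, fun n 𝕏 G _ hG => ?_⟩
  have h : ∀ k : ℕ, ∃ 𝕐 : Str τ (Fin n), (∀ (l : Fin τ.m) (z : Fin (τ.ar l) → Fin n),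
        (∀ i j, z i = z j ∨ G (z i) (z j)) → (𝕐 l z ↔ 𝕏 l z)) ∧
      ∀ (m : ℕ) (s : Fin m → Fin n), m ≤ k → Injective s → Embeds (pull 𝕐 s) 𝔹 := by
    intro k
    induction k with
    | zero =>
      refine ⟨𝕏, fun l z _ => Iff.rfl, fun m s hm hs => ?_⟩
      obtain rfl : m = 0 := by omega
      exact hG 0 s (Nat.zero_le _) hs fun i => i.elim0
    | succ k ih =>
      obtain ⟨𝕐, ha, hb⟩ := ih
      exact da_step hD 𝕏 G hG k 𝕐 ha hb
  obtain ⟨𝕐, ha, hb⟩ := h n
  obtain ⟨f, hf1, hf2⟩ := hb n id le_rfl injective_id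
  exact ⟨f, fun i j hij _ h => hij (hf1 h), fun l z hz => (hf2 l z).symm.trans (ha l z hz)⟩

end Pool.Agent.H44.CM
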