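import Pool.Agent.H44.AR.BasicA

/-!
# Completions: definitions

`Completable 𝔹` means that partial structures, whose small fully determined parts embed into `𝔹`,
have completions in `𝔹`. Partial structures are structures in the signature with one more binary
symbol for the determined pairs.
-/

set_option autoImplicit false

namespace Pool.Agent.H44.CM

open Pool.Agent.H68.BP Pool.Agent.H58.SF Pool.Agent.H53.GC Pool.Agent.H53.NR Pool.Agent.H53.GR
open Pool.Agent.H57.AR Pool.Agent.H44.AR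
open Function

section defs

variable {τ σ : Sig} {B V W : Type}

/-- The structure `𝔹` has completions: let `G` be a graph on the set of elements of a finite
structure `𝕏`. If all cliques of `G` with at most `M` elements embed into `𝔹`, then there is a map
from `𝕏` to `𝔹` which is an embedding on each clique of `G`. -/
def Completable (𝔹 : Str τ B) : Prop :=
  ∃ M : ℕ, ∀ (n : ℕ) (𝕏 : Str τ (Fin n)) (G : Fin n → Fin n → Prop), (∀ i j, G i j → G j i) →
    (∀ (m : ℕ) (s : Fin m → Fin n), m ≤ M → Injective s → (∀ i j, i ≠ j → G (s i) (s j)) →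
      Embeds (pull 𝕏 s) 𝔹) →
    ∃ f : Fin n → B, (∀ i j, i ≠ j → G i j → f i ≠ f j) ∧
      ∀ (l : Fin τ.m) (z : Fin (τ.ar l) → Fin n), (∀ i j, z i = z j ∨ G (z i) (z j)) →
        (𝔹 l (fun i => f (z i)) ↔ 𝕏 l z)

/-- The signature with one more binary symbol. -/
def plus (τ : Sig) : Sig := ⟨τ.m + 1, Fin.cons 2 τ.ar⟩

/-- the relations of the old symbols -/
def red (𝕏 : Str (plus τ) W) : Str τ W := fun l => 𝕏 (Fin.succ l)

/-- the determined pairs -/
def dt (𝕏 : Str (plus τ) W) (x y : W) : Prop := 𝕏 (0 : Fin (τ.m + 1)) ![x, y]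

/-- the structure with given determined pairs -/
def mk (D : W → W → Prop) (𝕏 : Str τ W) : Str (plus τ) W :=
  Fin.cases (motive := fun l : Fin (τ.m + 1) => (Fin ((plus τ).ar l) → W) → Prop)
    (fun z : Fin 2 → W => D (z 0) (z 1)) (fun l => 𝕏 l)

theorem red_mk (D : W → W → Prop) (𝕏 : Str τ W) : red (mk D 𝕏) = 𝕏 := rfl

theorem dt_mk (D : W → W → Prop) (𝕏 : Str τ W) (x y : W) : dt (mk D 𝕏) x y ↔ D x y := Iff.rfl

theorem red_pull {U : Type} (𝕏 : Str (plus τ) W) (s : U → W) :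
    red (pull 𝕏 s) = pull (red 𝕏) s := rfl

theorem dt_apply (𝕏 : Str (plus τ) W) (z : Fin 2 → W) :
    𝕏 (0 : Fin (τ.m + 1)) z ↔ dt 𝕏 (z 0) (z 1) := by
  unfold dt
  have h : z = ![z 0, z 1] := by
    funext i
    fin_cases i <;> rfl
  rw [← h]

theorem dt_pull {U : Type} (𝕏 : Str (plus τ) W) (s : U → W) (x y : U) :
    dt (pull 𝕏 s) x y ↔ dt 𝕏 (s x) (s y) :=
  dt_apply 𝕏 (fun i => s (![x, y] i))

/-- structures in the extended signature are equal if the determined pairs and the relations are -/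
theorem str_ext {𝕏 𝕐 : Str (plus τ) W} (h1 : ∀ x y, dt 𝕏 x y ↔ dt 𝕐 x y) (h2 : red 𝕏 = red 𝕐) :
    𝕏 = 𝕐 := by
  funext l
  refine Fin.cases ?_ (fun l => ?_) l
  · funext z
    exact propext ((dt_apply 𝕏 z).trans ((h1 _ _).trans (dt_apply 𝕐 z).symm))
  · exact congrFun h2 l

/-- All irreducible substructures with at most `M` elements are completely determined and embed
into `𝔹`. -/
def Cl (𝔹 : Str τ B) (M : ℕ) (𝕏 : Str (plus τ) W) : Prop :=
  ∀ (m : ℕ) (s : Fin m → W), m ≤ M → Injective s → Irreducible (pull 𝕏 s) →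
    (∀ i j, dt 𝕏 (s i) (s j)) ∧ Embeds (pull (red 𝕏) s) 𝔹

theorem Cl.comp {U : Type} {𝔹 : Str τ B} {M : ℕ} {𝕏 : Str (plus τ) W} (h : Cl 𝔹 M 𝕏)
    {s : U → W} (hs : Injective s) : Cl 𝔹 M (pull 𝕏 s) := by
  intro m r hm hr hI
  obtain ⟨h1, h2⟩ := h m (fun i => s (r i)) hm (hs.comp hr) hI
  exact ⟨fun i j => (dt_pull 𝕏 s _ _).2 (h1 i j), h2⟩

/-- `y` is a completion of the tuple `x`. -/
structure Cpl (𝔹 : Str τ B) (𝕍 : Str (plus τ) V) (x : W → V) (y : W → B) : Prop where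
  eq : ∀ a b, x a = x b → y a = y b
  ne : ∀ a b, x a ≠ x b → dt 𝕍 (x a) (x b) → y a ≠ y b
  rel : ∀ (l : Fin τ.m) (z : Fin (τ.ar l) → W),
    (∀ i j, x (z i) = x (z j) ∨ dt 𝕍 (x (z i)) (x (z j))) →
    (𝔹 l (fun i => y (z i)) ↔ red 𝕍 l (fun i => x (z i)))

theorem Cpl.comp {U : Type} {𝔹 : Str τ B} {𝕍 : Str (plus τ) V} {x : W → V} {y : W → B}
    (h : Cpl 𝔹 𝕍 x y) (s : U → W) : Cpl 𝔹 𝕍 (fun a => x (s a)) (fun a => y (s a)) :=
  ⟨fun a b => h.eq (s a) (s b), fun a b => h.ne (s a) (s b),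
    fun l z hz => h.rel l (fun i => s (z i)) hz⟩

/-- The structure of the tuples all of whose completions are in the relations of `𝔸`. -/
def cAll (𝔸 : Str σ B) (𝔹 : Str τ B) (𝕍 : Str (plus τ) V) : Str σ V :=
  fun l x => ∀ y, Cpl 𝔹 𝕍 x y → 𝔸 l y

end defs

/-! ### The universal partial structure -/

section universal

variable {τ : Sig} {B : Type} (𝔹 : Str τ B) (M : ℕ)

/-- the finite partial structures -/
abbrev Idx : Type := Σ n : ℕ, {𝕏 : Str (plus τ) (Fin n) // Cl 𝔹 M 𝕏}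

instance : Countable (Idx 𝔹 M) := by
  have : ∀ n, Finite (Str (plus τ) (Fin n)) := fun n => by
    unfold Str
    infer_instance
  unfold Idx
  infer_instance

/-- the ordered sum of the finite partial structures -/
structure Sm : Type where
  i : Idx 𝔹 M
  a : Fin i.1

instance : Countable (Sm 𝔹 M) := by
  refine Injective.countable (f := fun v : Sm 𝔹 M => (⟨v.i, v.a⟩ : Σ i : Idx 𝔹 M, Fin i.1)) ?_
  rintro ⟨i, a⟩ ⟨j, b⟩ h
  simp only [Sigma.mk.injEq] at h
  obtain ⟨rfl, h2⟩ := h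
  rw [eq_of_heq h2]

/-- the enumeration of the summands -/
noncomputable def enc : Idx 𝔹 M → ℕ := (exists_injective_nat (Idx 𝔹 M)).choose

theorem enc_inj : Injective (enc 𝔹 M) := (exists_injective_nat (Idx 𝔹 M)).choose_spec

/-- the key of the order -/
noncomputable def key (v : Sm 𝔹 M) : ℕ ×ₗ ℕ := toLex (enc 𝔹 M v.i, v.a.val)

theorem key_inj : Injective (key 𝔹 M) := by
  rintro ⟨i, a⟩ ⟨j, b⟩ h
  have h1 : (enc 𝔹 M i, a.val) = (enc 𝔹 M j, b.val) := toLex.injective h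
  have h2 : i = j := enc_inj 𝔹 M (congrArg Prod.fst h1)
  subst h2
  have h3 : a = b := Fin.ext (congrArg Prod.snd h1)
  rw [h3]

noncomputable instance : LinearOrder (Sm 𝔹 M) := LinearOrder.lift' (key 𝔹 M) (key_inj 𝔹 M)

theorem sm_lt {i : Idx 𝔹 M} (a b : Fin i.1) : (⟨i, a⟩ : Sm 𝔹 M) < ⟨i, b⟩ ↔ a < b := by
  show key 𝔹 M ⟨i, a⟩ < key 𝔹 M ⟨i, b⟩ ↔ a < b
  unfold key
  rw [Prod.Lex.toLex_lt_toLex]
  simp

/-- the universal partial structure -/
def 𝕌 : Str (plus τ) (Sm 𝔹 M) :=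
  fun l z => ∃ (i : Idx 𝔹 M) (w : Fin ((plus τ).ar l) → Fin i.1), (∀ a, z a = ⟨i, w a⟩) ∧ i.2.1 l w

end universal

end Pool.Agent.H44.CM
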