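import Pool.Agent.H44.CM.Defs

/-!
# Completions: structures with completions are finitely bounded
-/

set_option autoImplicit false

namespace Pool.Agent.H44.CM

open Pool.Agent.H68.BP Pool.Agent.H58.SF Pool.Agent.H53.GC Pool.Agent.H53.NR
open Function

theorem bounded_of_completable {τ : Sig} {B : Type} {𝔹 : Str τ B} (hC : Completable 𝔹) :
    FinitelyBounded 𝔹 := by
  classical
  obtain ⟨M, hM⟩ := hC
  have hfin : ∀ n : ℕ, Finite (Str τ (Fin n)) := fun n => by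
    unfold Str
    infer_instance
  have hF : Finite (Σ m : Fin (M + 1), Str τ (Fin m)) := inferInstance
  let _ : Fintype (Σ m : Fin (M + 1), Str τ (Fin m)) := Fintype.ofFinite _
  let N : List (Σ n : ℕ, Str τ (Fin n)) :=
    ((Finset.univ : Finset (Σ m : Fin (M + 1), Str τ (Fin m))).toList.map
      fun p => (⟨(p.1 : ℕ), p.2⟩ : Σ n : ℕ, Str τ (Fin n))).filter fun p => ¬ Embeds p.2 𝔹
  have hN : ∀ p : Σ n : ℕ, Str τ (Fin n), p ∈ N ↔ p.1 ≤ M ∧ ¬ Embeds p.2 𝔹 := by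
    rintro ⟨m, 𝕐⟩
    simp only [N, List.mem_filter, List.mem_map, Finset.mem_toList, Finset.mem_univ, true_and,
      decide_eq_true_eq]
    constructor
    · rintro ⟨⟨⟨k, 𝕑⟩, he⟩, h⟩
      obtain ⟨h1, h2⟩ := Sigma.mk.inj he
      exact ⟨h1 ▸ Nat.lt_succ_iff.1 k.2, h⟩
    · rintro ⟨h1, h2⟩
      exact ⟨⟨⟨⟨m, Nat.lt_succ_of_le h1⟩, 𝕐⟩, rfl⟩, h2⟩
  refine ⟨N, fun n 𝕏 => ⟨fun ⟨f, hf1, hf2⟩ p hp ⟨g, hg1, hg2⟩ => ?_, fun h => ?_⟩⟩
  · exact ((hN p).1 hp).2 ⟨fun i => f (g i), hf1.comp hg1,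
      fun l z => (hg2 l z).trans (hf2 l fun i => g (z i))⟩
  · obtain ⟨f, hf1, hf2⟩ := hM n 𝕏 (fun _ _ => True) (fun _ _ _ => trivial) (by
      intro m s hm hs _
      by_contra h1
      exact h ⟨m, pull 𝕏 s⟩ ((hN _).2 ⟨hm, h1⟩) ⟨s, hs, fun l z => Iff.rfl⟩)
    refine ⟨f, fun i j hij => ?_, fun l z => (hf2 l z fun _ _ => Or.inr trivial).symm⟩
    by_contra hne
    exact hf1 i j hne trivial hij

end Pool.Agent.H44.CM
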