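import Pool.Agent.H44.CM.AllA
import Pool.Agent.H44.CM.PtC
import Pool.Agent.H50.AR.Final

/-!
# Completions: the theorem, with parameters
-/

set_option autoImplicit false

namespace Pool.Agent.H44.CM

open Pool.Agent.H68.BP Pool.Agent.H58.SF Pool.Agent.H53.GC Pool.Agent.H53.NR Pool.Agent.H50.PT
open Function

/-- The theorem for the first-order reducts of homogeneous structures with completions. -/
theorem cm_main (τ σ : Sig) (B : Type) [Countable B] [Nonempty B] (𝔹 : Str τ B) (𝔸 : Str σ B)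
    (har : ∀ l, 1 ≤ τ.ar l) (hH : Homogeneous 𝔹) (hC : Completable 𝔹)
    (hS : ∀ g : B ≃ B, IsAut 𝔹 g → IsAut 𝔸 g) :
    PPConstructsK3 𝔸 ∨ ∃ (σ' : Sig) (Y : Type) (_ : Finite Y) (𝕋 : Str σ' Y),
      ¬ PPConstructsK3 𝕋 ∧ N793a5b8e.ManyOneReducible (CSP 𝔸) (CSP 𝕋) :=
  asm_cm2 Pool.Agent.H50.AR.pf_REDR Pool.Agent.H50.AR.v_TPL Pool.Agent.H50.EQ.pf_OLG
    Pool.Agent.H50.AR.pf_TYIR τ σ B 𝔹 𝔸 har hH hC hS

/-- The theorem for structures which are invariant under the automorphisms fixing the elements of a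
finite set. -/
theorem cm_par (τ σ : Sig) (B : Type) [Countable B] [Nonempty B] (𝔹 : Str τ B)
    (𝔸 : Str σ B) (hH : Homogeneous 𝔹) (hF : Completable 𝔹) (C : Set B) (hC : C.Finite)
    (hS : ∀ g : B ≃ B, IsAut 𝔹 g → (∀ x ∈ C, g x = x) → IsAut 𝔸 g) :
    PPConstructsK3 𝔸 ∨ ∃ (σ' : Sig) (Y : Type) (_ : Finite Y) (𝕋 : Str σ' Y),
      ¬ PPConstructsK3 𝕋 ∧ N793a5b8e.ManyOneReducible (CSP 𝔸) (CSP 𝕋) := by
  classical
  have : Finite C := hC.to_subtype
  let e : C ≃ Fin (Nat.card C) := Finite.equivFin C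
  let cst : Fin (Nat.card C) → B := fun j => (e.symm j : C)
  have hcst : Injective cst := Subtype.val_injective.comp e.symm.injective
  have hCc : ∀ x ∈ C, ∃ j, cst j = x := fun x hx => ⟨e ⟨x, hx⟩, by
    simp only [cst, Equiv.symm_apply_apply]⟩
  have hS' : ∀ g : B ≃ B, IsAut 𝔹 g → (∀ j, g (cst j) = cst j) → IsAut 𝔸 g := by
    intro g hg hgc
    refine hS g hg fun x hx => ?_
    obtain ⟨j, rfl⟩ := hCc x hx
    exact hgc j
  have hfb := cm_BS hH hF hcst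
  have hsec : ∀ b : B, ∃ b' : BP cst, cl cst b' = b := by
    intro b
    by_cases h : ∀ j, b ≠ cst j
    · exact ⟨Sum.inl ⟨b, h⟩, rfl⟩
    · push Not at h
      obtain ⟨j, hj⟩ := h
      exact ⟨Sum.inr (j, 0), hj.symm⟩
  choose s hs using hsec
  have : Nonempty (BP cst) := ⟨s (Classical.arbitrary B)⟩
  let 𝔸' : Str σ (BP cst) := fun l x => 𝔸 l (fun i => cl cst (x i))
  have h1 : IsHom 𝔸 𝔸' s := by
    intro l x hx
    change 𝔸 l (fun i => cl cst (s (x i)))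
    simp only [hs]
    exact hx
  have h2 : IsHom 𝔸' 𝔸 (cl cst) := fun l x hx => hx
  have har' : ∀ l, 1 ≤ (sigOf (Sy τ (Nat.card C)) ArS).ar l := by
    intro l
    have h3 : ∀ t : Sy τ (Nat.card C), 1 ≤ Nat.card (ArS t) := by
      rintro (p | j)
      · obtain ⟨i, hi⟩ := p.2
        have : Nonempty (ArS (Sum.inl p : Sy τ (Nat.card C))) := ⟨⟨i, hi⟩⟩
        exact Nat.one_le_iff_ne_zero.2 Finite.card_pos.ne'
      · have : Nonempty (ArS (Sum.inr j : Sy τ (Nat.card C))) := ⟨()⟩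
        exact Nat.one_le_iff_ne_zero.2 Finite.card_pos.ne'
    exact h3 _
  have hinv : ∀ g : BP cst ≃ BP cst, IsAut (BS 𝔹 cst) g → IsAut 𝔸' g := by
    intro g' hg' l x
    obtain ⟨g, hg, hgc, hgx⟩ := Pool.Agent.H50.PT.key hH x (fun i => g' (x i))
      (fun i j => by rw [g'.injective.eq_iff]) (fun t z => aut_strOn.1 hg' t (fun i => x (z i)))
    have h3 := hS' g hg hgc l (fun i => cl cst (x i))
    change 𝔸 l (fun i => cl cst (x i)) ↔ 𝔸 l (fun i => cl cst (g' (x i)))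
    rw [h3]
    simp only [hgx]
  rcases cm_main _ σ (BP cst) (BS 𝔹 cst) 𝔸' har' (hom_BS hH) hfb hinv with
    h | ⟨σ', Y, hY, 𝕋, h3, h4⟩
  · exact Or.inl (ppc_of_homs h1 h2 h)
  · refine Or.inr ⟨σ', Y, hY, 𝕋, h3, ?_⟩
    have h5 : CSP 𝔸 = CSP 𝔸' := Pool.Agent.H50.SO.csp_congr fun n 𝕏 =>
      ⟨fun ⟨f, hf⟩ => ⟨fun i => s (f i), fun l x hx => h1 l _ (hf l x hx)⟩,
        fun ⟨f, hf⟩ => ⟨fun i => cl cst (f i), fun l x hx => h2 l _ (hf l x hx)⟩⟩
    rw [h5]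
    exact h4

/-- structures with free amalgamation have completions -/
theorem cm_free {τ : Sig} {B : Type} {𝔹 : Str τ B} (hF : FinitelyBounded 𝔹)
    (hA : FreeAmalgamation 𝔹) : Completable 𝔹 :=
  completable_of_free Pool.Agent.H77.NR.pf_FB1 hF hA

end Pool.Agent.H44.CM
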