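import Pool.Agent.H44.CM.Uni
import Pool.Agent.H60.AR.PWO
import Pool.Agent.H70.AR.HH0

/-!
# Completions: the canonical Olšák map
-/

set_option autoImplicit false

namespace Pool.Agent.H44.CM

open Pool.Agent.H68.BP Pool.Agent.H58.SF Pool.Agent.H53.GC Pool.Agent.H53.NR Pool.Agent.H53.GR
open Pool.Agent.H57.AR Pool.Agent.H44.AR
open Pool.Agent.H57.EQ (Cx)
open Pool.Agent.H70.AR (pX pY pat_pX pat_pY Hy Rq)
open Pool.Agent.H60.AR (hz hz_eq cf cf_map)
open Pool.Agent.H95.GR (ext ext_map ext_castLE)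
open Function

/-! ### General lemmas -/

/-- from local maps to the canonical Olšák map -/
theorem sit_of_ex (hNR3 : Pool.Agent.H53.GR.T_NR3) (hCAN : Pool.Agent.H44.AR.T_CANR) {σ ρ : Sig}
    {V : Type} [LinearOrder V] {𝔸 : Str σ V} {𝔹 : Str ρ V} {M : ℕ} (hU : Un 𝔹 M)
    (hbl : Blind 𝔹 𝔸 ∅)
    (hex : ∀ (W : Type) [Finite W] (G : Fin 6 → W → V), (∀ u w, (∀ i, G i u = G i w) → u = w) →
      ∃ t : OT ρ W, ∀ (k : ℕ) (z : Fin k → W), Rq 𝔸 𝔹 k (fun a i => G i (z a)) (pullO t z)) :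
    ∃ h, Sit 𝔹 𝔸 ∅ h := by
  have har : ∀ l, 1 ≤ ρ.ar l := fun l => (hU.ar l).1
  obtain ⟨h, hti, hR⟩ := hCAN ρ ρ V (Fin 6) 𝔹 hU.ne har (hNR3 ρ V 𝔹 M har hU.univ)
    (Rq 𝔸 𝔹) (by
      rintro k v v' t hs ⟨⟨ψ, h1, h2⟩, h3⟩
      have hs' := sameTp_iff.1 hs
      refine ⟨⟨ψ, fun l z hz => h1 l z fun i => ?_, h2⟩, fun j r a b hy => h3 j r a b ⟨?_, ?_⟩⟩
      · exact hbl l _ _ (hz i)
          (SameD.of_tpo (tpo_comp hs' (fun a : Fin (σ.ar l) => (z a, i))) ∅).symm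
      · intro i l
        exact (eq_of_tpo hs' (a i, l) (a i, pat r (pX r) (pY r) l)).2 (hy.1 i l)
      · intro i l
        exact (eq_of_tpo hs' (b i, l) (a i, pat 0 (pX r) (pY r) l)).2 (hy.2 i l)) hex
  have key : ∀ (j : ℕ) (r : Fin 3) (x y : Fin j → V),
      pullO h (fun i => pat r (x i) (y i)) = pullO h (fun i => pat 0 (x i) (y i)) := by
    intro j r x y
    have h1 := (hR (j + j) (Fin.append (fun i => pat r (x i) (y i))
      (fun i => pat 0 (x i) (y i)))).2 j r (Fin.castAdd j) (Fin.natAdd j) (by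
        constructor
        · intro i l
          rw [Fin.append_left]
          rw [pat_map (pat r (x i) (y i)) r (pX r) (pY r) l, pat_pX, pat_pY]
        · intro i l
          rw [Fin.append_left, Fin.append_right]
          rw [pat_map (pat r (x i) (y i)) 0 (pX r) (pY r) l, pat_pX, pat_pY])
    rw [pullO_pullO, pullO_pullO] at h1
    simpa only [Fin.append_left, Fin.append_right] using h1
  refine ⟨h, hbl, ?_, ?_, ?_⟩
  · intro W _ G
    obtain ⟨n, ⟨e⟩⟩ := Finite.exists_equiv_fin W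
    obtain ⟨⟨ψ, h1, h2⟩, -⟩ := hR n (fun a i => G i (e.symm a))
    refine ⟨fun w => ψ (e w), fun l z hz => h1 l (fun a => e (z a)) fun i => ?_, ?_⟩
    · simpa only [Equiv.symm_apply_apply] using hz i
    · have h3 := congrArg (fun t => pullO t e) h2
      simp only [pullO_pullO, pullO_tpo, Equiv.symm_apply_apply] at h3
      exact h3
  · intro k v v' hs
    exact hti k v v' (sameTp_iff.2 hs.tpo)
  · intro r
    refine Prod.ext ?_ ?_
    · funext l z
      exact congrFun (congrFun (congrArg Prod.fst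
        (key _ r (fun i => (z i).1) (fun i => (z i).2))) l) (fun i => i)
    · funext p q
      have h1 := congrFun (congrFun (congrArg Prod.snd
        (key 2 r ![p.1, q.1] ![p.2, q.2])) 0) 1
      exact h1

/-- the Olšák map with the ordered types of its values -/
theorem pw1 (hPWG : T_PWG) {σ ρ : Sig} {V : Type} [LinearOrder V] (𝔸 : Str σ V) (𝔹 : Str ρ V)
    {M : ℕ} (har : ∀ l, 1 ≤ ρ.ar l ∧ ρ.ar l < M) (h3 : 3 ≤ M) (hV : Countable V)
    (hne : Nonempty V) (hol : Oligo 𝔸) (hK : ¬ PPConstructsK3 𝔸) :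
    ∃ h : OT ρ (Fin 6 → V), (∀ (s : Option (Fin σ.m)) (v : Fin (arP σ M s) → Fin 6 → V),
      (∀ c, relP 𝔸 M s (fun a => v a c)) →
      ∃ x : Fin (arP σ M s) → V, relP 𝔸 M s x ∧ tpo 𝔹 x = pullO h v) ∧ ExaO h := by
  have hfin : Finite (OT ρ (Fin M)) := by
    have : Finite (Str ρ (Fin M)) := by
      unfold Str
      infer_instance
    infer_instance
  obtain ⟨h, hh1, hh2⟩ := hPWG σ V (OT ρ (Fin M)) 𝔸 M (fun p => tpo 𝔹 p) hV hne
    (by omega) hol hK
  refine ⟨hz har h3 h, fun s v hv => ?_, fun r => ?_⟩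
  · obtain ⟨x, hx1, hx2⟩ := hh1 s v hv
    exact ⟨x, hx1, hz_eq 𝔹 har h3 h x v hx2⟩
  · refine Prod.ext ?_ ?_
    · funext l z
      have e : ∀ r : Fin 3, (pullO (hz har h3 h) (fun p : V × V => pat r p.1 p.2)).1 l z =
          (h (fun i => pat r (ext (har l).1 z i).1 (ext (har l).1 z i).2)).1 l
            (fun i => Fin.castLE (har l).2.le i) := by
        intro r
        have h2 : (fun i : Fin M => pat r (ext (har l).1 z i).1 (ext (har l).1 z i).2) =
            fun i => ext (har l).1 (fun j => pat r (z j).1 (z j).2) i := by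
          funext i
          exact ext_map (har l).1 (fun p : V × V => pat r p.1 p.2) z i
        rw [h2]
        rfl
      rw [e r, e 0, hh2 r]
    · funext a b
      have e : ∀ r : Fin 3, (pullO (hz har h3 h) (fun p : V × V => pat r p.1 p.2)).2 a b =
          (h (fun i => pat r (cf a b i).1 (cf a b i).2)).2 ⟨0, by omega⟩ ⟨1, by omega⟩ := by
        intro r
        have h2 : (fun i : Fin M => pat r (cf a b i).1 (cf a b i).2) =
            fun i => cf (pat r a.1 a.2) (pat r b.1 b.2) i := by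
          funext i
          exact cf_map (fun p : V × V => pat r p.1 p.2) a b i
        rw [h2]
        rfl
      rw [e r, e 0, hh2 r]

/-! ### Completions -/

section cpl

variable {τ σ : Sig} {B W : Type} {𝔹 : Str τ B} {M : ℕ} {𝔸 : Str σ B}

theorem Cpl.of_tp {V : Type} {𝕍 : Str (plus τ) V} {x x' : W → V} {y : W → B}
    (h : Cpl 𝔹 𝕍 x y) (hx : tp 𝕍 x' = tp 𝕍 x) : Cpl 𝔹 𝕍 x' y := by
  have h1 : ∀ a b, x' a = x' b ↔ x a = x b := fun a b =>
    iff_of_eq (congrFun (congrFun (congrArg Prod.fst hx) a) b)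
  have h2 : ∀ a b, dt 𝕍 (x' a) (x' b) ↔ dt 𝕍 (x a) (x b) := by
    intro a b
    rw [← dt_pull, ← dt_pull, show pull 𝕍 x' = pull 𝕍 x from congrArg Prod.snd hx]
  have h3 : ∀ (l : Fin τ.m) (z : Fin (τ.ar l) → W),
      red 𝕍 l (fun i => x' (z i)) ↔ red 𝕍 l (fun i => x (z i)) := by
    intro l z
    exact iff_of_eq (congrFun (congrFun (congrArg Prod.snd hx) l.succ) z)
  refine ⟨fun a b hab => h.eq a b ((h1 a b).1 hab), fun a b hab hd =>
    h.ne a b (fun h' => hab ((h1 a b).2 h')) ((h2 a b).1 hd), fun l z hz => ?_⟩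
  rw [h3]
  refine h.rel l z fun i j => ?_
  rw [← h1, ← h2]
  exact hz i j

/-- the completions of total tuples -/
theorem cpl_total {x' : W → Sm 𝔹 M} {x y : W → B} (hd : ∀ a b, dt (𝕌 𝔹 M) (x' a) (x' b))
    (he : ∀ a b, x' a = x' b ↔ x a = x b)
    (hr : ∀ (l : Fin τ.m) (z : Fin (τ.ar l) → W),
      red (𝕌 𝔹 M) l (fun i => x' (z i)) ↔ 𝔹 l (fun i => x (z i)))
    (h : Cpl 𝔹 (𝕌 𝔹 M) x' y) : tp 𝔹 y = tp 𝔹 x := by
  refine Prod.ext (funext fun a => funext fun b => propext ?_)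
    (funext fun l => funext fun z => propext ?_)
  · show y a = y b ↔ x a = x b
    rw [← he]
    constructor
    · intro h1
      by_contra h2
      exact h.ne a b h2 (hd a b) h1
    · exact h.eq a b
  · exact (h.rel l z fun i j => Or.inr (hd _ _)).trans (hr l z)

/-- total tuples embed, in the order of `B` -/
theorem total_tuple [LinearOrder B] [Finite W] (har : ∀ l, 1 ≤ τ.ar l) (x : W → B) :
    ∃ x' : W → Sm 𝔹 M, (∀ a b, x' a < x' b ↔ x a < x b) ∧
      (∀ a b, dt (𝕌 𝔹 M) (x' a) (x' b)) ∧ (∀ a b, x' a = x' b ↔ x a = x b) ∧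
      ∀ (l : Fin τ.m) (z : Fin (τ.ar l) → W),
        red (𝕌 𝔹 M) l (fun i => x' (z i)) ↔ 𝔹 l (fun i => x (z i)) := by
  classical
  have := Fintype.ofFinite W
  let F : Finset B := Finset.univ.image x
  let o := F.orderEmbOfFin rfl
  obtain ⟨f, hf1, hf2, hf3⟩ := total_embeds (𝔹 := 𝔹) (M := M) har (x := o) o.injective
  have hx : ∀ a, ∃ i, o i = x a := by
    intro a
    have h1 : x a ∈ Set.range o := by
      rw [Finset.range_orderEmbOfFin]
      exact Finset.mem_coe.2 (Finset.mem_image.2 ⟨a, Finset.mem_univ _, rfl⟩)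
    exact h1
  choose k hk using hx
  refine ⟨fun a => f (k a), fun a b => ?_, fun a b => hf2 _ _, fun a b => ?_, fun l z => ?_⟩
  · rw [hf1.lt_iff_lt, ← hk a, ← hk b, o.lt_iff_lt]
  · rw [hf1.injective.eq_iff, ← hk a, ← hk b, o.injective.eq_iff]
  · rw [hf3 l fun i => k (z i)]
    simp only [hk]

theorem blind_cAll : Blind (𝕌 𝔹 M) (cAll 𝔸 𝔹 (𝕌 𝔹 M)) ∅ := by
  intro l x y hx hxy z hz
  exact hx z (hz.of_tp hxy.tp.symm)

/-- the same finite structures map to `𝔸` and to the structure of completions -/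
theorem homEq_cAll [LinearOrder B] (har : ∀ l, 1 ≤ τ.ar l)
    (htyi : ∀ (l : Fin σ.m) (x y : Fin (σ.ar l) → B), 𝔸 l x → tp 𝔹 y = tp 𝔹 x → 𝔸 l y)
    (hC : ∀ (W : Type) [Finite W] (x : W → Sm 𝔹 M), ∃ y : W → B, Cpl 𝔹 (𝕌 𝔹 M) x y) :
    HomEq 𝔸 (cAll 𝔸 𝔹 (𝕌 𝔹 M)) := by
  intro n 𝕏
  constructor
  · rintro ⟨f, hf⟩
    obtain ⟨x', h1, h2, h3, h4⟩ := total_tuple (𝔹 := 𝔹) (M := M) har f
    refine ⟨x', fun l z hz y hy => htyi l _ _ (hf l z hz) ?_⟩
    exact cpl_total (fun a b => h2 _ _) (fun a b => h3 _ _) (fun l' w => h4 l' fun i => z (w i)) hy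
  · rintro ⟨f, hf⟩
    obtain ⟨y, hy⟩ := hC (Fin n) f
    exact ⟨y, fun l z hz => hf l z hz _ (hy.comp z)⟩

/-- the canonical Olšák map of the structure of completions -/
theorem sit_cAll (hNR3 : Pool.Agent.H53.GR.T_NR3) (hCAN : Pool.Agent.H44.AR.T_CANR)
    (hPWG : T_PWG) (hRLZ : T_RLZ) [LinearOrder B] [Nonempty B] [Countable B] (h3 : 3 ≤ M)
    (har : ∀ l, 1 ≤ τ.ar l ∧ τ.ar l < M)
    (htyi : ∀ (l : Fin σ.m) (x y : Fin (σ.ar l) → B), 𝔸 l x → tp 𝔹 y = tp 𝔹 x → 𝔸 l y)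
    (hC : ∀ (W : Type) [Finite W] (x : W → Sm 𝔹 M), ∃ y : W → B, Cpl 𝔹 (𝕌 𝔹 M) x y)
    (hol : Oligo 𝔸) (hK : ¬ PPConstructsK3 𝔸) :
    ∃ h, Sit (𝕌 𝔹 M) (cAll 𝔸 𝔹 (𝕌 𝔹 M)) ∅ h := by
  have har1 : ∀ l, 1 ≤ τ.ar l := fun l => (har l).1
  obtain ⟨h₀, hp, hE⟩ := pw1 hPWG 𝔸 𝔹 har h3 inferInstance inferInstance hol hK
  have hU : Un (𝕌 𝔹 M) M := un_u h3 har
  refine sit_of_ex hNR3 hCAN hU blind_cAll fun W _ G _ => ?_
  obtain ⟨y, hy⟩ := hC (Fin 6 × W) (fun p => G p.1 p.2)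
  let q : OT τ W := pullO h₀ (fun w i => y (i, w))
  let q' : OT (plus τ) W := (mk (fun _ _ => True) q.1, q.2)
  obtain ⟨ψ, hψ⟩ := hRLZ (plus τ) (Sm 𝔹 M) (𝕌 𝔹 M) M hU W q' (by
    intro p
    obtain ⟨x, -, hx⟩ := hp none (fun a i => y (i, p a)) (fun _ => trivial)
    have hx' : tpo 𝔹 x = pullO q p := hx
    obtain ⟨x', h1, h2, h3', h4⟩ := total_tuple (𝔹 := 𝔹) (M := M) har1 x
    refine ⟨x', Prod.ext (str_ext (fun a b => ?_) ?_) (funext fun a => funext fun b => ?_)⟩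
    · exact ⟨fun _ => trivial, fun _ => (dt_pull (𝕌 𝔹 M) x' a b).2 (h2 a b)⟩
    · funext l z
      refine propext ((h4 l z).trans ?_)
      exact iff_of_eq (congrFun (congrFun (congrArg Prod.fst hx') l) z)
    · refine propext ((h1 a b).trans ?_)
      exact iff_of_eq (congrFun (congrFun (congrArg Prod.snd hx') a) b))
  have hd : ∀ a b, dt (𝕌 𝔹 M) (ψ a) (ψ b) := by
    intro a b
    rw [← dt_pull, show pull (𝕌 𝔹 M) ψ = mk (fun _ _ => True) q.1 from congrArg Prod.fst hψ]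
    exact trivial
  have hr : ∀ (l : Fin τ.m) (z : Fin (τ.ar l) → W),
      red (𝕌 𝔹 M) l (fun i => ψ (z i)) ↔ q.1 l z := by
    intro l z
    exact iff_of_eq (congrFun (congrFun (congrArg Prod.fst hψ) l.succ) z)
  have he : ∀ a b, ψ a = ψ b ↔ eqO q a b := by
    intro a b
    rw [← eqO_tpo (𝔹 := 𝕌 𝔹 M) ψ a b, hψ]
    exact Iff.rfl
  have hCx : Cx (cAll 𝔸 𝔹 (𝕌 𝔹 M)) G ψ := by
    intro l z hz y' hy'
    obtain ⟨x, hx1, hx2⟩ := hp (some l) (fun a i => y (i, z a)) (fun i =>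
      hz i _ (hy.comp fun a => (i, z a)))
    have hx2' : tpo 𝔹 x = pullO q z := hx2
    refine htyi l x y' hx1 ?_
    refine cpl_total (fun a b => hd _ _) (fun a b => ?_) (fun l' w => ?_) hy'
    · rw [he, ← eqO_pullO q z a b, ← hx2']
      exact eqO_tpo (𝔹 := 𝔹) x a b
    · rw [hr]
      exact (iff_of_eq (congrFun (congrFun (congrArg Prod.fst hx2') l') w)).symm
  refine ⟨tpo (𝕌 𝔹 M) ψ, fun k z => ⟨⟨fun a => ψ (z a),
    fun l w hw => hCx l (fun a => z (w a)) hw, rfl⟩, fun j r a b hab => ?_⟩⟩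
  have h5 : pullO q (fun i => z (a i)) = pullO q (fun i => z (b i)) := by
    have e1 : (fun i : Fin j => fun l => y (l, z (a i))) = fun i : Fin j =>
        pat r (y (pX r, z (a i))) (y (pY r, z (a i))) := by
      funext i l
      rw [← pat_map (fun l => y (l, z (a i))) r (pX r) (pY r) l]
      exact hy.eq (l, z (a i)) (pat r (pX r) (pY r) l, z (a i)) (hab.1 i l)
    have e2 : (fun i : Fin j => fun l => y (l, z (b i))) = fun i : Fin j =>
        pat 0 (y (pX r, z (a i))) (y (pY r, z (a i))) := by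
      funext i l
      rw [← pat_map (fun l => y (l, z (a i))) 0 (pX r) (pY r) l]
      exact hy.eq (l, z (b i)) (pat 0 (pX r) (pY r) l, z (a i)) (hab.2 i l)
    show pullO h₀ (fun i : Fin j => fun l => y (l, z (a i))) =
      pullO h₀ (fun i : Fin j => fun l => y (l, z (b i)))
    rw [e1, e2]
    exact congrArg (fun t => pullO t
      (fun i : Fin j => (y (pX r, z (a i)), y (pY r, z (a i))))) (hE r)
  rw [pullO_pullO, pullO_pullO, hψ]
  refine Prod.ext (str_ext (fun c d => Iff.rfl) ?_) ?_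
  · exact congrArg Prod.fst h5
  · have h6 : (pullO q (fun i => z (a i))).2 = (pullO q (fun i => z (b i))).2 :=
      congrArg Prod.snd h5
    exact h6

end cpl

end Pool.Agent.H44.CM
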