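import Pool.Agent.H44.CM.Defs

/-!
# Completions: the universal partial structure
-/

set_option autoImplicit false

namespace Pool.Agent.H44.CM

open Pool.Agent.H68.BP Pool.Agent.H58.SF Pool.Agent.H53.GC Pool.Agent.H53.NR Pool.Agent.H53.GR
open Pool.Agent.H57.AR Pool.Agent.H44.AR
open Function

variable {τ : Sig} {B W : Type} {𝔹 : Str τ B} {M : ℕ}

theorem plus_ar (h3 : 3 ≤ M) (har : ∀ l, 1 ≤ τ.ar l ∧ τ.ar l < M) :
    ∀ l, 1 ≤ (plus τ).ar l ∧ (plus τ).ar l < M := by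
  intro l
  refine Fin.cases ?_ (fun l => ?_) l
  · exact ⟨by show 1 ≤ 2; norm_num, by show 2 < M; omega⟩
  · exact har l

theorem plus_ar1 (har : ∀ l, 1 ≤ τ.ar l) : ∀ l, 1 ≤ (plus τ).ar l := by
  intro l
  refine Fin.cases ?_ (fun l => ?_) l
  · show 1 ≤ 2
    norm_num
  · exact har l

/-- total structures -/
theorem cl_total {x : W → B} (hx : Injective x) :
    Cl 𝔹 M (mk (fun _ _ => True) (pull 𝔹 x)) := by
  intro m s hm hs _
  exact ⟨fun i j => trivial, fun i => x (s i), hx.comp hs, fun l z => Iff.rfl⟩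

theorem u_iff {l : Fin (plus τ).m} (h1 : 1 ≤ (plus τ).ar l) (i : Idx 𝔹 M)
    (w : Fin ((plus τ).ar l) → Fin i.1) : 𝕌 𝔹 M l (fun a => ⟨i, w a⟩) ↔ i.2.1 l w := by
  constructor
  · rintro ⟨i', w', h2, h3⟩
    have h4 := h2 ⟨0, h1⟩
    have h5 : i = i' := congrArg Sm.i h4
    subst h5
    have h6 : w = w' := funext fun a => by
      have h7 := h2 a
      simp only [Sm.mk.injEq, heq_eq_eq, true_and] at h7
      exact h7
    rw [h6]
    exact h3
  · intro h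
    exact ⟨i, w, fun _ => rfl, h⟩

theorem cl_u (har : ∀ l, 1 ≤ τ.ar l) : Cl 𝔹 M (𝕌 𝔹 M) := by
  intro m s hm hs hI
  rcases Nat.eq_zero_or_pos m with rfl | hpos
  · refine ⟨fun i => i.elim0, fun i => i.elim0, fun i => i.elim0, fun l z => ?_⟩
    exact (z ⟨0, har l⟩).elim0
  · let i := (s ⟨0, hpos⟩).i
    have h1 : ∀ j, ∃ a : Fin i.1, s j = ⟨i, a⟩ := by
      intro j
      by_cases hj : j = ⟨0, hpos⟩
      · subst hj
        exact ⟨(s ⟨0, hpos⟩).a, rfl⟩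
      · obtain ⟨l, z, ⟨i', w, h2, h3⟩, ⟨a, ha⟩, ⟨b, hb⟩⟩ := hI j ⟨0, hpos⟩ hj
        have h4 : s (z a) = ⟨i', w a⟩ := h2 a
        have h5 : s (z b) = ⟨i', w b⟩ := h2 b
        rw [ha] at h4
        rw [hb] at h5
        have h6 : i = i' := congrArg Sm.i h5
        rw [h4, h6]
        exact ⟨w a, rfl⟩
    choose t ht using h1
    have hs' : s = fun j => ⟨i, t j⟩ := funext ht
    have htinj : Injective t := by
      intro a b hab
      apply hs
      rw [ht a, ht b, hab]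
    have hpull : pull (𝕌 𝔹 M) s = pull i.2.1 t := by
      rw [hs']
      funext l z
      exact propext (u_iff (plus_ar1 har l) i fun a => t (z a))
    obtain ⟨h2, h3⟩ := i.2.2 m t hm htinj (by rw [← hpull]; exact hI)
    refine ⟨fun a b => ?_, ?_⟩
    · have h4 := h2 a b
      rw [← dt_pull i.2.1 t, ← hpull, dt_pull] at h4
      exact h4
    · rw [← red_pull, hpull]
      exact h3

theorem cl_embeds (har : ∀ l, 1 ≤ τ.ar l) {n : ℕ} {𝕏 : Str (plus τ) (Fin n)}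
    (h : Cl 𝔹 M 𝕏) : ∃ f : Fin n → Sm 𝔹 M, StrictMono f ∧ IsEmb 𝕏 (𝕌 𝔹 M) f := by
  let i : Idx 𝔹 M := ⟨n, 𝕏, h⟩
  refine ⟨fun j => ⟨i, j⟩, fun a b hab => (sm_lt 𝔹 M (i := i) a b).2 hab, fun a b hab => ?_,
    fun l w => (u_iff (plus_ar1 har l) i w).symm⟩
  have h7 : (⟨i, a⟩ : Sm 𝔹 M) = ⟨i, b⟩ := hab
  simp only [Sm.mk.injEq, heq_eq_eq, true_and] at h7
  exact h7

theorem univ_u (har : ∀ l, 1 ≤ τ.ar l) : Univ (𝕌 𝔹 M) M := by
  intro n 𝕏 hX
  refine cl_embeds har ?_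
  intro m s hm hs hI
  obtain ⟨f, hf1, hf2⟩ := hX m s hm hs hI
  have hpull : pull (𝕌 𝔹 M) f = pull 𝕏 s := by
    funext l z
    exact propext (hf2 l z).symm
  obtain ⟨h2, h3⟩ := cl_u har m f hm hf1 (by rw [hpull]; exact hI)
  refine ⟨fun a b => ?_, ?_⟩
  · have h4 := h2 a b
    rw [← dt_pull, hpull, dt_pull] at h4
    exact h4
  · rw [← red_pull, ← hpull]
    exact h3

theorem un_u [Nonempty B] (h3 : 3 ≤ M) (har : ∀ l, 1 ≤ τ.ar l ∧ τ.ar l < M) :
    Un (𝕌 𝔹 M) M := by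
  have har1 : ∀ l, 1 ≤ τ.ar l := fun l => (har l).1
  obtain ⟨b⟩ := ‹Nonempty B›
  have h1 : Cl 𝔹 M (mk (fun _ _ => True) (pull 𝔹 (fun _ : Fin 1 => b))) :=
    cl_total fun i j _ => Subsingleton.elim i j
  obtain ⟨f, -, -⟩ := cl_embeds har1 h1
  exact ⟨⟨f 0⟩, inferInstance, h3, plus_ar h3 har, univ_u har1⟩

/-- total structures embed, in any order -/
theorem total_embeds (har : ∀ l, 1 ≤ τ.ar l) {n : ℕ} {x : Fin n → B} (hx : Injective x) :
    ∃ f : Fin n → Sm 𝔹 M, StrictMono f ∧ (∀ i j, dt (𝕌 𝔹 M) (f i) (f j)) ∧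
      ∀ (l : Fin τ.m) (z : Fin (τ.ar l) → Fin n),
        red (𝕌 𝔹 M) l (fun i => f (z i)) ↔ 𝔹 l (fun i => x (z i)) := by
  obtain ⟨f, h1, h2, h3⟩ := cl_embeds har (cl_total (𝔹 := 𝔹) (M := M) hx)
  refine ⟨f, h1, fun i j => ?_, fun l z => (h3 l.succ z).symm⟩
  rw [← dt_pull]
  exact (h3 (0 : Fin (τ.m + 1)) ![i, j]).1 trivial

/-- existence of completions -/
theorem exists_cpl (har : ∀ l, 1 ≤ τ.ar l)
    (hC : ∀ (n : ℕ) (𝕏 : Str τ (Fin n)) (G : Fin n → Fin n → Prop), (∀ i j, G i j → G j i) →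
      (∀ (m : ℕ) (s : Fin m → Fin n), m ≤ M → Injective s → (∀ i j, i ≠ j → G (s i) (s j)) →
        Embeds (pull 𝕏 s) 𝔹) →
      ∃ f : Fin n → B, (∀ i j, i ≠ j → G i j → f i ≠ f j) ∧
        ∀ (l : Fin τ.m) (z : Fin (τ.ar l) → Fin n), (∀ i j, z i = z j ∨ G (z i) (z j)) →
          (𝔹 l (fun i => f (z i)) ↔ 𝕏 l z))
    (h3 : 3 ≤ M) [Finite W] (x : W → Sm 𝔹 M) : ∃ y : W → B, Cpl 𝔹 (𝕌 𝔹 M) x y := by
  classical
  let K := Set.range x
  have : Finite K := Set.finite_range x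
  let e := Finite.equivFin K
  let u : Fin (Nat.card K) → Sm 𝔹 M := fun i => (e.symm i).1
  have hu : Injective u := fun i j h => e.symm.injective (Subtype.ext h)
  have hsym : ∀ v w : Sm 𝔹 M, dt (𝕌 𝔹 M) v w → dt (𝕌 𝔹 M) w v := by
    intro v w hvw
    by_cases hne : v = w
    · rw [hne] at hvw ⊢
      exact hvw
    have hI : Irreducible (pull (𝕌 𝔹 M) ![v, w]) := by
      intro a b hab
      refine ⟨(0 : Fin (τ.m + 1)), ![0, 1], ?_, ?_, ?_⟩
      · show 𝕌 𝔹 M (0 : Fin (τ.m + 1)) (fun i => ![v, w] ((![0, 1] : Fin 2 → Fin 2) i))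
        exact (dt_apply _ _).2 hvw
      · fin_cases a
        · exact ⟨(0 : Fin 2), rfl⟩
        · exact ⟨(1 : Fin 2), rfl⟩
      · fin_cases b
        · exact ⟨(0 : Fin 2), rfl⟩
        · exact ⟨(1 : Fin 2), rfl⟩
    have hinj : Injective ![v, w] := by
      intro a b hab
      fin_cases a <;> fin_cases b
      · rfl
      · exact absurd hab hne
      · exact absurd hab.symm hne
      · rfl
    exact (cl_u har 2 ![v, w] (by omega) hinj hI).1 1 0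
  obtain ⟨f, hf1, hf2⟩ := hC (Nat.card K) (pull (red (𝕌 𝔹 M)) u)
    (fun i j => dt (𝕌 𝔹 M) (u i) (u j)) (fun i j h => hsym _ _ h) (by
      intro m s hm hs hG
      refine (cl_u har m (fun i => u (s i)) hm (hu.comp hs) ?_).2
      intro a b hab
      refine ⟨(0 : Fin (τ.m + 1)), ![a, b], ?_, ⟨(0 : Fin 2), rfl⟩, ⟨(1 : Fin 2), rfl⟩⟩
      show 𝕌 𝔹 M (0 : Fin (τ.m + 1)) (fun i => u (s ((![a, b] : Fin 2 → Fin m) i)))
      exact (dt_apply _ _).2 (hG a b hab))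
  let k : W → Fin (Nat.card K) := fun w => e ⟨x w, w, rfl⟩
  have hk : ∀ w, u (k w) = x w := fun w => by
    show (e.symm (e ⟨x w, w, rfl⟩)).1 = x w
    rw [Equiv.symm_apply_apply]
  have hke : ∀ a b, x a = x b ↔ k a = k b := fun a b =>
    ⟨fun h => congrArg e (Subtype.ext h), fun h => by rw [← hk a, h, hk b]⟩
  refine ⟨fun w => f (k w), fun a b hab => ?_, fun a b hab hd => ?_, fun l z hz => ?_⟩
  · show f (k a) = f (k b)
    rw [(hke a b).1 hab]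
  · refine hf1 (k a) (k b) (fun h => hab ((hke a b).2 h)) ?_
    rw [hk, hk]
    exact hd
  · rw [hf2 l (fun i => k (z i)) fun i j => ?_]
    · show red (𝕌 𝔹 M) l (fun i => u (k (z i))) ↔ _
      simp only [hk]
    · rcases hz i j with h | h
      · exact Or.inl ((hke _ _).1 h)
      · right
        rw [hk, hk]
        exact h

end Pool.Agent.H44.CM
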